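import Pool.Agent.Q30.Lext.Three

/-!
# Absolute `p`-extendability of doubling spaces as `p → 0`

Already for the three-point space `{0, 1, 3} ⊂ ℝ` (doubling constant at most 2) the absolute
`p`-extendability constants tend to infinity as `p → 0`.
-/

set_option autoImplicit false
open Filter Topology
open scoped ENNReal
open Pool.Agent.Q30.Lext

namespace Pool.Agent.Results.MP_d7144b_an.ThreePoints

noncomputable section

/-- every closed ball of radius `2 r` is covered by at most `n` closed balls of radius `r` -/
def DoublingWith (n : ℕ) (A : Type) [MetricSpace A] : Prop :=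
  ∀ (x : A) (r : ℝ), 0 < r →
    ∃ s : Finset A, s.card ≤ n ∧ Metric.closedBall x (2 * r) ⊆ ⋃ c ∈ s, Metric.closedBall c r

/-- the quotient `ae_p(A) / ae_1(A)` -/
def q (A : Type) [MetricSpace A] (p : ℝ) : ℝ≥0∞ := aeC p A / aeC 1 A

lemma A3_doubling : DoublingWith 2 A3 := by
  classical
  intro x r hr
  let a : A3 := ⟨0, by simp⟩
  let b : A3 := ⟨1, by simp⟩
  let c : A3 := ⟨3, by simp⟩
  have hall : ∀ x : A3, x = a ∨ x = b ∨ x = c := by
    rintro ⟨x, hx⟩
    simp only [Set.mem_insert_iff, Set.mem_singleton_iff] at hx
    rcases hx with rfl | rfl | rfl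
    · exact Or.inl rfl
    · exact Or.inr (Or.inl rfl)
    · exact Or.inr (Or.inr rfl)
  have dab : dist a b = 1 := by show dist (0 : ℝ) 1 = 1; rw [Real.dist_eq]; norm_num
  have dac : dist a c = 3 := by show dist (0 : ℝ) 3 = 3; rw [Real.dist_eq]; norm_num
  have dbc : dist b c = 2 := by show dist (1 : ℝ) 3 = 2; rw [Real.dist_eq]; norm_num
  have card2 : ∀ u v : A3, ({u, v} : Finset A3).card ≤ 2 := fun u v => Finset.card_le_two
  rcases le_or_gt 1 r with h | h
  · refine ⟨{a, c}, card2 _ _, fun y _ => ?_⟩
    simp only [Finset.mem_insert, Finset.mem_singleton, Set.mem_iUnion, Metric.mem_closedBall,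
      exists_prop, exists_eq_or_imp, exists_eq_left]
    rcases hall y with rfl | rfl | rfl
    · left; rw [dist_self]; linarith
    · left; rw [dist_comm, dab]; exact h
    · right; rw [dist_self]; linarith
  · rcases hall x with rfl | rfl | rfl
    · refine ⟨{a, b}, card2 _ _, fun y hy => ?_⟩
      rw [Metric.mem_closedBall] at hy
      simp only [Finset.mem_insert, Finset.mem_singleton, Set.mem_iUnion, Metric.mem_closedBall,
        exists_prop, exists_eq_or_imp, exists_eq_left]
      rcases hall y with rfl | rfl | rfl
      · left; rw [dist_self]; linarith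
      · right; rw [dist_self]; linarith
      · rw [dist_comm, dac] at hy; linarith
    · refine ⟨{a, b}, card2 _ _, fun y hy => ?_⟩
      rw [Metric.mem_closedBall] at hy
      simp only [Finset.mem_insert, Finset.mem_singleton, Set.mem_iUnion, Metric.mem_closedBall,
        exists_prop, exists_eq_or_imp, exists_eq_left]
      rcases hall y with rfl | rfl | rfl
      · left; rw [dist_self]; linarith
      · right; rw [dist_self]; linarith
      · rw [dist_comm, dbc] at hy; linarith
    · refine ⟨{c, c}, card2 _ _, fun y hy => ?_⟩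
      rw [Metric.mem_closedBall] at hy
      simp only [Finset.mem_insert, Finset.mem_singleton, Set.mem_iUnion, Metric.mem_closedBall,
        exists_prop, exists_eq_or_imp, exists_eq_left]
      rcases hall y with rfl | rfl | rfl
      · rw [dac] at hy; linarith
      · rw [dbc] at hy; linarith
      · left; rw [dist_self]; linarith

lemma tendsto_q : Tendsto (q A3) (𝓝[>] 0) (𝓝 ⊤) := by
  apply ENNReal.tendsto_nhds_top
  intro K
  filter_upwards [ae_ge (5 * K)] with p hp
  refine lt_of_lt_of_le ?_ (ENNReal.div_le_div_left ae_one_le _)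
  rw [ENNReal.lt_div_iff_mul_lt (Or.inl (by norm_num)) (Or.inl (by norm_num))]
  push_cast at hp
  rwa [mul_comm]

/-- For every `n ≥ 2` there is a doubling metric space `A` with doubling constant at most `n` (in
fact one with three points) with `ae_1(A) < ∞` and `ae_p(A) / ae_1(A) → ∞` as `p → 0`; in particular
the supremum over all doubling spaces with constant at most `n` of the limits is infinite. -/
theorem result (n : ℕ) (hn : 2 ≤ n) :
    (∃ (A : Type) (_ : MetricSpace A), Nat.card A = 3 ∧ DoublingWith n A ∧ aeC 1 A < ⊤ ∧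
      Tendsto (q A) (𝓝[>] 0) (𝓝 ⊤)) ∧
    (⨆ (A : Type) (_ : MetricSpace A) (_ : DoublingWith n A), liminf (q A) (𝓝[>] 0)) = ⊤ := by
  have hd : DoublingWith n A3 := by
    intro x r hr
    obtain ⟨s, hs, h⟩ := A3_doubling x r hr
    exact ⟨s, hs.trans hn, h⟩
  refine ⟨⟨A3, inferInstance, ?_, hd, ae_one_le.trans_lt (by norm_num), tendsto_q⟩, ?_⟩
  · rw [Nat.card_coe_set_eq]
    rw [Set.ncard_eq_toFinset_card', Set.toFinset_insert, Set.toFinset_insert, Set.toFinset_singleton,
      Finset.card_insert_of_notMem, Finset.card_insert_of_notMem, Finset.card_singleton]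
    · simp
    · simp
  · rw [eq_top_iff, ← tendsto_q.liminf_eq]
    exact le_iSup_of_le A3 (le_iSup_of_le inferInstance (le_iSup_of_le hd le_rfl))

end

end Pool.Agent.Results.MP_d7144b_an.ThreePoints
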